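import Pool.Agent.H247.SD.Stm
import Pool.Graph.R_seed8.R774.OS1

/-! Shadowing of closed pseudo-orbits in hyperbolic sets from the closing lemma. -/

set_option autoImplicit false

open scoped Manifold ContDiff Topology
open Filter Set Metric

universe u

namespace Pool.Agent.H342.SD

open Pool.Agent.H718R2.G Pool.Agent.R774.Cl Pool.Agent.W564.SC Pool.Agent.R774.ClStmt
open Pool.Agent.TH80.OMS Pool.Agent.H247.SD

theorem main : S_SHD.{u} := by
  intro n N _ _ _ _ r hr G m e B K h ε hε
  have hΦ : Act (E := V n) (fun (_ : V 0) (y : N) => y) :=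
    ⟨h.action.smooth.of_le (by exact_mod_cast le_top), h.action.zero⟩
  have hF1 : ContMDiff (𝓡 n) (𝓡 n) 1 G :=
    G.contMDiff_toFun.of_le (by exact_mod_cast hr)
  obtain ⟨M, d, hd1, hd2, -⟩ := exists_embedding_euclidean_of_compact (I := 𝓡 n) (M := N)
  obtain ⟨δ, hδ, hcl⟩ := closing (E := V n) (T := V 0) hΦ hF1 h.cont h.smooth
    (d := d) hd1.continuous hd2.injective h.closed h.inv h.free h.basic h.incr
    (Q := fun x y _ => dist x y < ε)
    (by
      intro x hx
      have h1 : Continuous (fun q : N × N × V 0 => dist q.1 q.2.1) :=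
        continuous_fst.dist (continuous_fst.comp continuous_snd)
      have h2 := h1.tendsto (x, x, (0 : V 0))
      simp only [dist_self] at h2
      exact h2.eventually (gt_mem_nhds hε))
  have huc : UniformContinuous d := CompactSpace.uniformContinuous_of_continuous hd1.continuous
  obtain ⟨δ', hδ', hdd⟩ := Metric.uniformContinuous_iff.1 huc δ hδ
  refine ⟨δ', hδ', fun p x hp hper hK hst => ?_⟩
  have : NeZero p := ⟨by omega⟩
  have hxp : x p = x 0 := by
    have := hper 0
    rwa [zero_add] at this
  obtain ⟨y, s, hys, hQ⟩ := hcl p (fun i => x i.val) (fun i => hK _) (fun i => by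
    have h1 := hdd (hst i.val)
    rw [wrap hxp i, ← dist_eq_norm, dist_comm]
    exact h1)
  have hit : ∀ j : ℕ, (G : N → N)^[j] (y 0) = y (j : ZMod p) := by
    intro j
    induction j with
    | zero => simp
    | succ j ih =>
      rw [Function.iterate_succ_apply', ih]
      have h1 := hys (j : ZMod p)
      rw [h1]
      push_cast
      rfl
  refine ⟨y 0, ?_, fun j => ?_⟩
  · rw [hit, ZMod.natCast_self]
  · rw [hit, dist_comm]
    have h1 := hQ (j : ZMod p)
    rw [ZMod.val_natCast, Function.Periodic.map_mod_nat hper] at h1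
    exact h1

end Pool.Agent.H342.SD
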